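import Mathlib

/-!
# The `3x+k` maps: definitions
-/

set_option autoImplicit false

namespace Pool.Agent.H556.KC

/-- the `3x+k` map -/
def T (k x : ℤ) : ℤ := if x % 2 = 0 then x / 2 else (3 * x + k) / 2

/-- the parity word `(x mod 2, T x mod 2, ..., T ^ (n - 1) x mod 2)` -/
def word (k : ℤ) : ℤ → ℕ → List ℤ
  | _, 0 => []
  | x, n + 1 => (x % 2) :: word k (T k x) n

/-- `w` is a product of at most `m` powers of words of length at most `U` -/
def FewPowers (m U : ℕ) (w : List ℤ) : Prop :=
  ∃ l : List (List ℤ × ℕ), l.length ≤ m ∧ (∀ u ∈ l, u.1.length ≤ U) ∧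
    w = (l.map fun u => (List.replicate u.2 u.1).flatten).flatten

end Pool.Agent.H556.KC
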