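import Mathlib
import Pool.Agent.H556.FX.Seq

/-!
# Common divisors of `2 ^ n - 3 ^ K` and short sums of powers of two times powers of three
-/

set_option autoImplicit false

namespace Pool.Agent.H556.KC

open Filter Topology Pool.Agent.TH932.Germs Pool.Agent.TH551.SU Pool.Agent.Y724.Vj
open Pool.Agent.H556.FG Pool.Agent.H556.FX

/-- the primes two and three -/
def bb : Fin 2 → ℕ := ![2, 3]

lemma bb_prime : ∀ v, (bb v).Prime := by
  intro v
  fin_cases v
  · exact Nat.prime_two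
  · exact Nat.prime_three

lemma bb_inj : Function.Injective bb := by
  intro v w h
  fin_cases v <;> fin_cases w <;> simp_all [bb]

lemma su_two : IsSU bb (2 : ℚ) := by
  have := isSU_int bb bb_prime bb_inj (x := 2) (by norm_num) (fun p hp hd => by
    have h1 : p ∣ 2 := by simpa using hd
    exact ⟨0, ((Nat.prime_dvd_prime_iff_eq hp Nat.prime_two).1 h1).symm⟩)
  exact_mod_cast this

lemma su_three : IsSU bb (3 : ℚ) := by
  have := isSU_int bb bb_prime bb_inj (x := 3) (by norm_num) (fun p hp hd => by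
    have h1 : p ∣ 3 := by simpa using hd
    exact ⟨1, ((Nat.prime_dvd_prime_iff_eq hp Nat.prime_three).1 h1).symm⟩)
  exact_mod_cast this

lemma two_pow_ne {n K : ℕ} (hn : 1 ≤ n) : (2 : ℤ) ^ n - 3 ^ K ≠ 0 := by
  intro h
  have h1 : (2 : ℤ) ^ n = 3 ^ K := by linarith
  have h2 : Even ((2 : ℤ) ^ n) := by
    rw [Int.even_pow]
    exact ⟨by decide, by omega⟩
  rw [h1, Int.even_pow] at h2
  exact absurd h2.1 (by decide)

lemma cop_two {n K : ℕ} (hn : 1 ≤ n) : ¬ (2 : ℤ) ∣ 2 ^ n - 3 ^ K := by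
  intro h
  have h1 : (2 : ℤ) ∣ 2 ^ n := dvd_pow_self _ (by omega)
  have h2 : (2 : ℤ) ∣ 3 ^ K := by
    have := dvd_sub h1 h
    simpa using this
  have h3 := Int.prime_two.dvd_of_dvd_pow h2
  norm_num at h3

lemma cop_three {n K : ℕ} (hK : 1 ≤ K) : ¬ (3 : ℤ) ∣ 2 ^ n - 3 ^ K := by
  intro h
  have h1 : (3 : ℤ) ∣ 3 ^ K := dvd_pow_self _ (by omega)
  have h2 : (3 : ℤ) ∣ 2 ^ n := by
    have := dvd_add h h1
    simpa using this
  have h3 := Int.prime_three.dvd_of_dvd_pow h2
  norm_num at h3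

theorem gcd23 (r : ℕ) (A : ℤ) {δ : ℝ} (hδ : 0 < δ) :
    ∃ B : ℕ, ∀ n ≥ B, ∀ K : ℕ, 1 ≤ K → K ≤ n → (∀ l : ℕ, l.Prime → l ≤ B → ¬ (l ∣ n ∧ l ∣ K)) →
      ∀ (c : Fin r → ℤ) (i j : Fin r → ℕ), (∀ t, |c t| ≤ A) → (∀ t, i t ≤ n) → (∀ t, j t ≤ n) →
      ¬ ((2 : ℤ) ^ n - 3 ^ K) ∣ ∑ t, c t * (2 ^ i t * 3 ^ j t) →
      ∀ D : ℕ, (D : ℤ) ∣ (2 : ℤ) ^ n - 3 ^ K → (D : ℤ) ∣ ∑ t, c t * (2 ^ i t * 3 ^ j t) →
      (D : ℝ) < Real.exp (δ * n) := by
  classical
  by_contra hcon
  push Not at hcon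
  choose N hN K hK1 hKN hl c i j hc hi hj hNF D hDF hDG hD using
    fun n : ℕ => hcon (n + 1)
  have hN1 : ∀ n, 1 ≤ N n := fun n => by have := hN n; omega
  have hl3 : 0 < Real.log 3 := Real.log_pos (by norm_num)
  set L : ℕ → ℝ := fun n => N n * Real.log 3 with hLdef
  have hexpL : ∀ n, Real.exp (L n) = 3 ^ (N n) := fun n => by
    rw [hLdef]
    simp only []
    rw [mul_comm, Real.exp_mul, Real.exp_log (by norm_num), Real.rpow_natCast]
  have hNt : Tendsto (fun n => (N n : ℝ)) atTop atTop := by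
    apply tendsto_natCast_atTop_atTop.comp
    exact tendsto_atTop_mono (fun n => (Nat.le_succ n).trans (hN n)) tendsto_id
  have hL : Tendsto L atTop atTop := hNt.atTop_mul_const hl3
  set Z : ℕ → ℚ := fun n => -(3 ^ K n / 2 ^ N n) with hZ
  have hZsu : ∀ n, IsSU bb (Z n) := fun n => by
    apply isSU_neg bb_prime
    rw [div_eq_mul_inv]
    exact FG.isSU_mul bb_prime (isSU_pow bb_prime su_three _)
      (FG.isSU_inv (isSU_pow bb_prime su_two _))
  have h2L : ∀ n, ∀ e ≤ N n, ((2 : ℝ)) ^ e ≤ Real.exp (L n) := by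
    intro n e he
    rw [hexpL]
    exact (pow_le_pow_left₀ (by norm_num) (by norm_num) _).trans
      (pow_le_pow_right₀ (by norm_num) he)
  have h3L : ∀ n, ∀ e ≤ N n, ((3 : ℝ)) ^ e ≤ Real.exp (L n) := by
    intro n e he
    rw [hexpL]
    exact pow_le_pow_right₀ (by norm_num) he
  have hLn : ∀ n, 0 ≤ L n := fun n => mul_nonneg (Nat.cast_nonneg _) hl3.le
  have hZB : Bd L (gm Z) := by
    refine ⟨fun n => -3 ^ (K n), fun n => 2 ^ (N n), 1, ?_, ?_, ?_, ?_⟩
    · refine Eventually.of_forall fun n => ?_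
      push_cast
      rw [abs_neg, one_mul, abs_of_pos (by positivity)]
      exact h3L n _ (hKN n)
    · refine Eventually.of_forall fun n => ?_
      push_cast
      rw [one_mul, abs_of_pos (by positivity)]
      exact h2L n _ le_rfl
    · exact Eventually.of_forall fun n => pow_ne_zero _ (by norm_num)
    · congr 1
      funext n
      rw [hZ]
      push_cast
      rw [neg_div]
  have hZden : ∀ n, ((2 : ℤ) ^ (N n)) ∣ (Z n).den := by
    intro n
    have h1 : (Z n).num * 2 ^ (N n) = -(3 ^ (K n)) * (Z n).den := by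
      have h2 : Z n * (Z n).den = (Z n).num := Rat.mul_den_eq_num _
      have h3 : (((Z n).num * 2 ^ (N n) : ℤ) : ℚ) = ((-(3 ^ (K n)) * (Z n).den : ℤ) : ℚ) := by
        push_cast
        rw [← h2, hZ]
        simp only []
        field_simp
      exact_mod_cast h3
    have h4 : IsCoprime ((2 : ℤ) ^ (N n)) (-(3 ^ (K n))) := by
      apply IsCoprime.neg_right
      apply IsCoprime.pow
      norm_num
    exact h4.dvd_of_dvd_mul_left ⟨_, by rw [← h1]; ring⟩
  have hZK : gm Z ∉ KK L hL := by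
    intro h
    rw [mem_KK_iff] at h
    have hl2 : 0 < Real.log 2 := Real.log_pos (by norm_num)
    have hl23 : Real.log 3 ≤ 2 * Real.log 2 := by
      have h1 : Real.log 3 ≤ Real.log 4 := Real.log_le_log (by norm_num) (by norm_num)
      have h2 : Real.log 4 = 2 * Real.log 2 := by
        rw [show (4 : ℝ) = 2 ^ 2 by norm_num, Real.log_pow]
        norm_num
      linarith
    have h1 := h.2 (1 / 4) (by norm_num)
    obtain ⟨n, hn1⟩ := h1.exists
    have h3 : (2 : ℤ) ^ (N n) ≤ (Z n).den :=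
      Int.le_of_dvd (by exact_mod_cast (Z n).den_pos) (hZden n)
    have h4 : (2 : ℝ) ^ (N n) ≤ Real.exp (1 / 4 * L n) := by
      refine le_trans ?_ hn1
      have h5 : ((2 : ℤ) ^ (N n) : ℝ) ≤ (((Z n).den : ℤ) : ℝ) := by exact_mod_cast h3
      push_cast at h5
      simpa using h5
    have h5 : (2 : ℝ) ^ (N n) = Real.exp (N n * Real.log 2) := by
      rw [mul_comm, Real.exp_mul, Real.exp_log (by norm_num), Real.rpow_natCast]
    rw [h5, Real.exp_le_exp] at h4
    have h6 : (1 : ℝ) ≤ N n := by exact_mod_cast hN1 n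
    have h7 : L n ≤ N n * (2 * Real.log 2) := mul_le_mul_of_nonneg_left hl23 (by linarith)
    nlinarith
  have hZ1 : ∀ w : GG, ∀ l : ℕ, l.Prime → gm Z ≠ -w ^ l := by
    intro w l hlp hw
    obtain ⟨ω, rfl⟩ := gm_surj w
    rw [gm_pow, gm_neg, gm_eq] at hw
    obtain ⟨n, hn, hn2⟩ := (hw.and (ev_of_atTop (eventually_ge_atTop l))).exists
    have hn3 : (3 : ℚ) ^ K n / 2 ^ N n = (ω n) ^ l := neg_injective hn
    have hln := hl n l hlp (by omega)
    -- `3 ^ K / 2 ^ N` is an `l`-th power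
    have hω : (ω n) ≠ 0 := by
      intro h0
      rw [h0, zero_pow hlp.ne_zero] at hn3
      have : (3 : ℚ) ^ K n / 2 ^ N n ≠ 0 := by positivity
      exact this hn3
    have h2 := congrArg (padicValRat 2) hn3
    have h3 := congrArg (padicValRat 3) hn3
    haveI : Fact (Nat.Prime 2) := ⟨Nat.prime_two⟩
    haveI : Fact (Nat.Prime 3) := ⟨Nat.prime_three⟩
    rw [padicValRat.div (by positivity) (by positivity), padicValRat.pow, padicValRat.pow,
      padicValRat.pow] at h2 h3
    have e1 : padicValRat 2 (3 : ℚ) = 0 := by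
      have : padicValRat 2 ((3 : ℕ) : ℚ) = 0 := by
        rw [padicValRat.of_nat, padicValNat_primes (by norm_num)]
        simp
      exact_mod_cast this
    have e2 : padicValRat 2 (2 : ℚ) = 1 := by
      have : padicValRat 2 ((2 : ℕ) : ℚ) = 1 := padicValRat.self (by norm_num)
      exact_mod_cast this
    have e3 : padicValRat 3 (3 : ℚ) = 1 := by
      have : padicValRat 3 ((3 : ℕ) : ℚ) = 1 := padicValRat.self (by norm_num)
      exact_mod_cast this
    have e4 : padicValRat 3 (2 : ℚ) = 0 := by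
      have : padicValRat 3 ((2 : ℕ) : ℚ) = 0 := by
        rw [padicValRat.of_nat, padicValNat_primes (by norm_num)]
        simp
      exact_mod_cast this
    rw [e1, e2] at h2
    rw [e3, e4] at h3
    refine hln ?_ ?_
    · have : (l : ℤ) ∣ (N n : ℤ) := ⟨-padicValRat 2 (ω n), by linarith⟩
      exact_mod_cast this
    · have : (l : ℤ) ∣ (K n : ℤ) := ⟨padicValRat 3 (ω n), by linarith⟩
      exact_mod_cast this
  have hZ2 : ∀ w : GG, gm Z * 4 ≠ w ^ 4 := by
    intro w hw
    obtain ⟨ω, rfl⟩ := gm_surj w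
    have h3 : gm (fun _ => (4 : ℚ)) = (4 : GG) := rfl
    rw [← h3, gm_mul, gm_pow, gm_eq] at hw
    obtain ⟨n, hn⟩ := hw.exists
    have h1 : 0 ≤ (ω n) ^ 4 := by positivity
    have h2 : (0 : ℚ) < 3 ^ K n / 2 ^ N n := by positivity
    rw [← hn, hZ] at h1
    simp only [] at h1
    linarith
  set Q : ℕ → ℕ := fun n => ((2 : ℤ) ^ N n - 3 ^ K n).natAbs with hQ
  have hQ0 : ∀ n, Q n ≠ 0 := fun n => Int.natAbs_ne_zero.2 (two_pow_ne (hN1 n))
  have h1Z : ∀ n, 1 + Z n = (((2 : ℤ) ^ N n - 3 ^ K n : ℤ) : ℚ) / 2 ^ N n := by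
    intro n
    rw [hZ]
    simp only []
    push_cast
    field_simp
    ring
  have hF0 : ∀ n, 1 + Z n ≠ 0 := by
    intro n
    rw [h1Z]
    exact div_ne_zero (by exact_mod_cast two_pow_ne (hN1 n)) (by positivity)
  have hQF : ∀ n, (Q n : ℤ) ∣ (1 + Z n).num := by
    intro n
    rw [hQ]
    simp only []
    rw [Int.natCast_natAbs, abs_dvd]
    have h1 : (1 + Z n).num * 2 ^ (N n) = ((2 : ℤ) ^ N n - 3 ^ K n) * (1 + Z n).den := by
      have h2 : (1 + Z n) * (1 + Z n).den = (1 + Z n).num := Rat.mul_den_eq_num _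
      have h3 : (((1 + Z n).num * 2 ^ (N n) : ℤ) : ℚ) =
          ((((2 : ℤ) ^ N n - 3 ^ K n) * (1 + Z n).den : ℤ) : ℚ) := by
        rw [Int.cast_mul, Int.cast_mul, ← h2, h1Z]
        push_cast
        field_simp
      exact_mod_cast h3
    have h4 : IsCoprime ((2 : ℤ) ^ N n - 3 ^ K n) (2 ^ N n) := by
      apply IsCoprime.pow_right
      rw [isCoprime_comm]
      exact (Int.prime_two.coprime_iff_not_dvd).2 (cop_two (hN1 n))
    exact h4.dvd_of_dvd_mul_right ⟨_, h1⟩
  have hDQ : ∀ n, D n ∣ Q n := fun n => Int.natCast_dvd.1 (hDF n)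
  set u : Fin r → ℕ → ℚ := fun t n => 2 ^ (i n t) * 3 ^ (j n t) with hu
  have hsum : ∀ n, ∑ t, (c n t : ℚ) * u t n = ((∑ t, c n t * (2 ^ i n t * 3 ^ j n t) : ℤ) : ℚ) := by
    intro n
    push_cast
    rfl
  have hl2 : 0 < Real.log 2 := Real.log_pos (by norm_num)
  refine core bb bb_prime bb_inj hL Z hZsu hZB hZK hZ1 hZ2 Q hQ0 hQF hF0 (fun n => ?_)
    (fun n v => ?_) (fun t n => c n t) u (fun t n => ?_) (fun t => ?_) (fun t => ?_) D hDQ
    (fun n => ?_) (fun n => ?_) (δ := δ / Real.log 3) (by positivity) (fun n => ?_)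
  · -- size of `Q`
    have h1 : (Q n : ℝ) = |(2 : ℝ) ^ N n - 3 ^ K n| := by
      have : ((Q n : ℤ) : ℝ) = ((|(2 : ℤ) ^ N n - 3 ^ K n| : ℤ) : ℝ) := by
        rw [hQ]
        simp only []
        rw [Int.natCast_natAbs]
      push_cast at this
      exact this
    rw [h1, abs_le]
    have h2 := h2L n (N n) le_rfl
    have h3 := h3L n (K n) (hKN n)
    constructor
    · have : (0 : ℝ) < 2 ^ N n := by positivity
      linarith
    · have : (0 : ℝ) < 3 ^ K n := by positivity
      linarith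
  · rw [Nat.coprime_comm, (bb_prime v).coprime_iff_not_dvd]
    intro h
    have h1 : ((bb v : ℕ) : ℤ) ∣ (2 : ℤ) ^ N n - 3 ^ K n := by
      have h2 : ((bb v : ℕ) : ℤ) ∣ ((Q n : ℕ) : ℤ) := Int.natCast_dvd_natCast.2 h
      rw [hQ] at h2
      simp only [] at h2
      rw [Int.natCast_natAbs, dvd_abs] at h2
      exact h2
    fin_cases v
    · exact cop_two (hN1 n) (by simpa [bb] using h1)
    · exact cop_three (hK1 n) (by simpa [bb] using h1)
  · exact FG.isSU_mul bb_prime (isSU_pow bb_prime su_two _) (isSU_pow bb_prime su_three _)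
  · refine ⟨fun n => 2 ^ (i n t) * 3 ^ (j n t), fun _ => 1, 2, ?_, ?_, ?_, ?_⟩
    · refine Eventually.of_forall fun n => ?_
      push_cast
      rw [abs_of_pos (by positivity), two_mul, Real.exp_add]
      exact mul_le_mul (h2L n _ (hi n t)) (h3L n _ (hj n t)) (by positivity) (Real.exp_pos _).le
    · refine Eventually.of_forall fun n => ?_
      push_cast
      rw [abs_one]
      exact Real.one_le_exp (by have := hLn n; linarith)
    · exact Eventually.of_forall fun n => one_ne_zero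
    · congr 1
      funext n
      rw [hu]
      push_cast
      rw [div_one]
  · intro ε hε
    have h3 : ∀ᶠ n in atTop, Real.log (|(A : ℝ)| + 1) ≤ ε * L n :=
      (hL.const_mul_atTop hε).eventually_ge_atTop _
    filter_upwards [ev_of_atTop h3] with n hn
    have h1 : |(c n t : ℝ)| ≤ A := by exact_mod_cast hc n t
    have h2 : (0 : ℝ) < |(A : ℝ)| + 1 := by positivity
    have h4 := Real.exp_le_exp.2 hn
    rw [Real.exp_log h2] at h4
    have h5 := le_abs_self (A : ℝ)
    linarith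
  · rw [hsum, Rat.num_intCast]
    exact hDG n
  · rw [hsum, Rat.num_intCast]
    intro h
    apply hNF n
    rw [hQ] at h
    simp only [] at h
    rwa [Int.natCast_natAbs, abs_dvd] at h
  · refine le_trans (le_of_eq ?_) (hD n)
    congr 1
    rw [hLdef]
    field_simp

end Pool.Agent.H556.KC
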