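import Mathlib
import Pool.Graph.R_seed8.W42.Form

/-!
# Lower bounds for `|n log 2 - K log 3|` and `|2 ^ n - 3 ^ K|`
-/

set_option autoImplicit false

namespace Pool.Agent.H556.KC

open Filter Topology

theorem low_log {δ : ℝ} (hδ : 0 < δ) :
    ∃ n₀ : ℕ, ∀ n ≥ n₀, ∀ K : ℕ,
      Real.exp (-(δ * n)) ≤ |(n : ℝ) * Real.log 2 - K * Real.log 3| := by
  have hl2 : 0 < Real.log 2 := Real.log_pos (by norm_num)
  have hl3 : 0 < Real.log 3 := Real.log_pos (by norm_num)
  set c : ℝ := Real.log (204800 / 117649) with hc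
  have hc0 : 0 < c := Real.log_pos (by norm_num)
  set η : ℝ := δ / (80 * Real.log 2) with hη
  have hη0 : 0 < η := by positivity
  have h89 : 3 * Real.log 2 < 2 * Real.log 3 := by
    have h1 := Pool.Agent.W42.Form.e98
    have h2 : 0 < Real.log (9 / 8) := Real.log_pos (by norm_num)
    linarith
  have h34 : Real.log 3 < 2 * Real.log 2 := by
    have h1 := Pool.Agent.W42.Form.e86
    have h2 : 0 < Real.log (8 / 6) := Real.log_pos (by norm_num)
    linarith
  -- the eventual inequalities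
  have e1 : ∀ᶠ n : ℕ in atTop, 49 * (n : ℝ) ≤ Real.exp (c * (η * n - 1)) := by
    have h1 := (Real.tendsto_exp_div_pow_atTop 1).eventually_ge_atTop
      (49 * Real.exp c / (c * η))
    have h2 : Tendsto (fun n : ℕ => c * η * (n : ℝ)) atTop atTop :=
      tendsto_natCast_atTop_atTop.const_mul_atTop (by positivity)
    filter_upwards [h2.eventually h1, eventually_gt_atTop 0] with n hn hn0
    have hn0' : (0 : ℝ) < n := by exact_mod_cast hn0
    rw [pow_one, div_le_div_iff₀ (by positivity) (by positivity)] at hn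
    have h3 : Real.exp (c * (η * n - 1)) = Real.exp (c * η * n) / Real.exp c := by
      rw [← Real.exp_sub]; ring_nf
    rw [h3, le_div_iff₀ (Real.exp_pos _)]
    have h4 : 0 < c * η := by positivity
    have h5 : (49 * Real.exp c * n) * (c * η) ≤ Real.exp (c * η * n) * (c * η) := by
      linarith
    have h6 := le_of_mul_le_mul_right h5 h4
    linarith
  have e2 : ∀ᶠ n : ℕ in atTop, 13 * Real.log 2 ≤ δ / 2 * (n : ℝ) :=
    (tendsto_natCast_atTop_atTop.const_mul_atTop (by positivity)).eventually_ge_atTop _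
  have e3 : ∀ᶠ n : ℕ in atTop, 1 ≤ (2 * Real.log 3 - 3 * Real.log 2) / 3 * (n : ℝ) :=
    (tendsto_natCast_atTop_atTop.const_mul_atTop (by linarith)).eventually_ge_atTop _
  have e4 : ∀ᶠ n : ℕ in atTop, 1 ≤ (2 * Real.log 2 - Real.log 3) / 2 * (n : ℝ) :=
    (tendsto_natCast_atTop_atTop.const_mul_atTop (by linarith)).eventually_ge_atTop _
  obtain ⟨n₀, hn₀⟩ := eventually_atTop.1 (e1.and (e2.and (e3.and e4)))
  refine ⟨n₀, fun n hn K => ?_⟩
  obtain ⟨g1, g2, g3, g4⟩ := hn₀ n hn
  have hnn : (0 : ℝ) ≤ n := Nat.cast_nonneg _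
  have hexp1 : Real.exp (-(δ * n)) ≤ 1 := by
    rw [Real.exp_le_one_iff]
    have : 0 ≤ δ * n := by positivity
    linarith
  rcases le_or_gt (2 * K) n with hK | hK
  · have hK' : 2 * (K : ℝ) ≤ n := by exact_mod_cast hK
    refine hexp1.trans (le_trans ?_ (le_abs_self _))
    nlinarith
  rcases le_or_gt (2 * n) (3 * K) with hK2 | hK2
  · have hK' : 2 * (n : ℝ) ≤ 3 * K := by exact_mod_cast hK2
    rw [abs_sub_comm]
    refine hexp1.trans (le_trans ?_ (le_abs_self _))
    nlinarith
  · set r : ℕ := ⌊η * n⌋₊ with hr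
    have hr1 : η * n - 1 ≤ r := by
      have := Nat.lt_floor_add_one (η * n)
      linarith
    have hr2 : (r : ℝ) ≤ η * n := Nat.floor_le (by positivity)
    have hpow : ((204800 : ℝ) / 117649) ^ r = Real.exp (c * r) := by
      rw [hc, Real.exp_mul, Real.exp_log (by norm_num), Real.rpow_natCast]
    have key := Pool.Agent.W42.Form.lower r n K (by exact_mod_cast hK) (by exact_mod_cast hK2) (by
      rw [hpow]
      have h1 : (49 : ℝ) * (((n : ℤ) : ℝ) - ((K : ℤ) : ℝ)) ≤ 49 * n := by
        push_cast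
        have : (0 : ℝ) ≤ K := Nat.cast_nonneg _
        linarith
      refine h1.trans (g1.trans (Real.exp_le_exp.2 ?_))
      exact mul_le_mul_of_nonneg_left hr1 hc0.le)
    have h2 : (2 : ℝ) ^ 13 * 2 ^ (39 * r) ≤ Real.exp (δ * n) := by
      rw [← pow_add, ← Real.exp_log (show (0 : ℝ) < 2 ^ (13 + 39 * r) by positivity),
        Real.log_pow]
      apply Real.exp_le_exp.2
      push_cast
      have h3 : 39 * (r : ℝ) * Real.log 2 ≤ 39 * (η * n) * Real.log 2 := by
        apply mul_le_mul_of_nonneg_right _ hl2.le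
        linarith
      have h4 : 39 * (η * n) * Real.log 2 = 39 / 80 * (δ * n) := by
        rw [hη]
        field_simp
      have h5 : 0 ≤ δ * n := by positivity
      nlinarith
    push_cast at key
    rw [Real.exp_neg, inv_le_iff_one_le_mul₀ (Real.exp_pos _)]
    refine key.trans ?_
    rw [mul_comm]
    exact mul_le_mul_of_nonneg_left h2 (abs_nonneg _)

/-- `|e ^ t - 1| ≥ min (|t|) 1 / 2` -/
lemma abs_exp_sub_one (t : ℝ) : min |t| 1 / 2 ≤ |Real.exp t - 1| := by
  rcases le_or_gt 0 t with h | h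
  · rw [abs_of_nonneg h]
    have h1 := Real.add_one_le_exp t
    have h2 : min t 1 ≤ t := min_le_left _ _
    refine le_trans ?_ (le_abs_self _)
    linarith
  · rw [abs_of_neg h, abs_sub_comm]
    refine le_trans ?_ (le_abs_self _)
    have h1 : Real.exp t ≤ 1 / (1 - t) := by
      have h2 := Real.add_one_le_exp (-t)
      rw [Real.exp_neg] at h2
      rw [le_div_iff₀ (by linarith)]
      have h3 := Real.exp_pos t
      have h4 : (-t + 1) * Real.exp t ≤ (Real.exp t)⁻¹ * Real.exp t :=
        mul_le_mul_of_nonneg_right h2 h3.le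
      rw [inv_mul_cancel₀ h3.ne'] at h4
      linarith
    have h5 : min (-t) 1 / 2 ≤ 1 - 1 / (1 - t) := by
      have h6 : 1 - 1 / (1 - t) = -t / (1 - t) := by
        have : (1 - t) ≠ 0 := by linarith
        field_simp
        ring
      rw [h6, div_le_div_iff₀ (by norm_num) (by linarith)]
      rcases le_or_gt (-t) 1 with h7 | h7
      · rw [min_eq_left h7]; nlinarith
      · rw [min_eq_right h7.le]; nlinarith
    linarith

theorem low_pow {δ : ℝ} (hδ : 0 < δ) :
    ∃ n₀ : ℕ, ∀ n ≥ n₀, ∀ K : ℕ,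
      Real.exp ((Real.log 2 - δ) * n) ≤ |(2 : ℝ) ^ n - 3 ^ K| := by
  obtain ⟨n₀, h⟩ := low_log (half_pos hδ)
  obtain ⟨n₁, hn₁⟩ := exists_nat_ge (2 * Real.log 2 / δ)
  refine ⟨max n₀ n₁, fun n hn K => ?_⟩
  have h1 := h n ((le_max_left _ _).trans hn) K
  have h2 : (n₁ : ℝ) ≤ n := by exact_mod_cast (le_max_right _ _).trans hn
  have h3 : Real.log 2 ≤ δ / 2 * n := by
    have h4 : 2 * Real.log 2 / δ ≤ n := hn₁.trans h2
    rw [div_le_iff₀ hδ] at h4
    linarith
  have e2 : (2 : ℝ) ^ n = Real.exp (n * Real.log 2) := by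
    rw [mul_comm, Real.exp_mul, Real.exp_log (by norm_num), Real.rpow_natCast]
  have e3 : (3 : ℝ) ^ K = Real.exp (K * Real.log 3) := by
    rw [mul_comm, Real.exp_mul, Real.exp_log (by norm_num), Real.rpow_natCast]
  set t : ℝ := K * Real.log 3 - n * Real.log 2 with ht
  have h5 : |(2 : ℝ) ^ n - 3 ^ K| = Real.exp (n * Real.log 2) * |Real.exp t - 1| := by
    rw [e2, e3, abs_sub_comm]
    have h6 : Real.exp (K * Real.log 3) - Real.exp (n * Real.log 2) =
        Real.exp (n * Real.log 2) * (Real.exp t - 1) := by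
      rw [mul_sub, mul_one, ← Real.exp_add, ht]
      congr 2
      ring
    rw [h6, abs_mul, abs_of_pos (Real.exp_pos _)]
  rw [h5]
  have h7 := abs_exp_sub_one t
  have h8 : Real.exp (-(δ / 2 * n)) ≤ min |t| 1 := by
    apply le_min
    · rw [ht, abs_sub_comm]
      exact h1
    · rw [Real.exp_le_one_iff]
      have : (0 : ℝ) ≤ n := Nat.cast_nonneg _
      have : 0 ≤ δ / 2 * n := by positivity
      linarith
  have h9 : Real.exp (-(δ * n)) ≤ |Real.exp t - 1| := by
    refine le_trans ?_ h7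
    have h10 : Real.exp (-(δ * n)) ≤ Real.exp (-(δ / 2 * n)) / 2 := by
      rw [le_div_iff₀ (by norm_num)]
      have h11 : Real.exp (-(δ * n)) * 2 = Real.exp (-(δ * n) + Real.log 2) := by
        rw [Real.exp_add, Real.exp_log (by norm_num)]
      rw [h11]
      apply Real.exp_le_exp.2
      linarith
    linarith
  calc Real.exp ((Real.log 2 - δ) * n) = Real.exp (n * Real.log 2) * Real.exp (-(δ * n)) := by
        rw [← Real.exp_add]; ring_nf
    _ ≤ _ := mul_le_mul_of_nonneg_left h9 (Real.exp_pos _).le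

end Pool.Agent.H556.KC
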