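import Mathlib
import Pool.Agent.H556.KC.Defs
import Pool.Agent.H556.KC.Gcd
import Pool.Agent.H556.KC.Low

/-!
# The orbits of the `3x+k` maps whose parity words are products of few powers
-/

set_option autoImplicit false

namespace Pool.Agent.H556.KC

open Filter Topology

/-- sums of `r` terms `c 2 ^ i 3 ^ j` with `|c| ≤ A`, `i, j ≤ J` -/
def Sh (A : ℤ) (J r : ℕ) (N : ℤ) : Prop :=
  ∃ (c : Fin r → ℤ) (i j : Fin r → ℕ), (∀ t, |c t| ≤ A) ∧ (∀ t, i t ≤ J) ∧ (∀ t, j t ≤ J) ∧
    N = ∑ t, c t * (2 ^ i t * 3 ^ j t)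

lemma Sh.zero (A : ℤ) (J : ℕ) : Sh A J 0 0 :=
  ⟨fun _ => 0, fun _ => 0, fun _ => 0, fun t => t.elim0, fun t => t.elim0, fun t => t.elim0,
  by simp⟩

lemma Sh.add {A : ℤ} {J r : ℕ} {N : ℤ} (h : Sh A J r N) {c : ℤ} (hc : |c| ≤ A) {i j : ℕ}
    (hi : i ≤ J) (hj : j ≤ J) : Sh A J (r + 1) (N + c * (2 ^ i * 3 ^ j)) := by
  obtain ⟨c', i', j', h1, h2, h3, h4⟩ := h
  refine ⟨Fin.snoc c' c, Fin.snoc i' i, Fin.snoc j' j, ?_, ?_, ?_, ?_⟩
  · intro t
    refine Fin.lastCases ?_ (fun t => ?_) t
    · simpa using hc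
    · simpa using h1 t
  · intro t
    refine Fin.lastCases ?_ (fun t => ?_) t
    · simpa using hi
    · simpa using h2 t
  · intro t
    refine Fin.lastCases ?_ (fun t => ?_) t
    · simpa using hj
    · simpa using h3 t
  · rw [Fin.sum_univ_castSucc, h4]
    simp

lemma Sh.pad {A : ℤ} (hA : 0 ≤ A) {J r r' : ℕ} {N : ℤ} (h : Sh A J r N) (hr : r ≤ r') :
    Sh A J r' N := by
  induction r', hr using Nat.le_induction with
  | base => exact h
  | succ n _ ih =>
    have := ih.add (c := 0) (by simpa using hA) (Nat.zero_le J) (Nat.zero_le J)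
    simpa using this

/-- multiplication by a power of two -/
lemma Sh.two {A : ℤ} {J r : ℕ} {N : ℤ} (h : Sh A J r N) (a : ℕ) : Sh A (a + J) r (2 ^ a * N) := by
  obtain ⟨c, i, j, h1, h2, h3, h4⟩ := h
  refine ⟨c, fun t => a + i t, j, h1, fun t => Nat.add_le_add_left (h2 t) _,
    fun t => (h3 t).trans (Nat.le_add_left _ _), ?_⟩
  rw [h4, Finset.mul_sum]
  refine Finset.sum_congr rfl fun t _ => ?_
  rw [pow_add]
  ring

/-- the number of ones -/
def ones (w : List ℤ) : ℕ := w.count 1

/-- the numerator -/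
def V : List ℤ → ℤ
  | [] => 0
  | a :: w => a * 3 ^ (ones w) + 2 * V w

lemma ones_append (w w' : List ℤ) : ones (w ++ w') = ones w + ones w' := List.count_append

lemma ones_le (w : List ℤ) : ones w ≤ w.length := List.count_le_length

lemma T_even {k x : ℤ} (hx : x % 2 = 0) : 2 * T k x = x := by
  unfold T
  rw [if_pos hx]
  omega

lemma T_odd {k x : ℤ} (hk : k % 2 = 1) (hx : x % 2 = 1) : 2 * T k x = 3 * x + k := by
  unfold T
  rw [if_neg (by omega)]
  omega

lemma word_length (k x : ℤ) (n : ℕ) : (word k x n).length = n := by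
  induction n generalizing x with
  | zero => rfl
  | succ n ih => simp [word, ih]

lemma word_mem (k x : ℤ) (n : ℕ) : ∀ a ∈ word k x n, a = 0 ∨ a = 1 := by
  induction n generalizing x with
  | zero => simp [word]
  | succ n ih =>
    intro a ha
    simp only [word, List.mem_cons] at ha
    rcases ha with rfl | ha
    · omega
    · exact ih _ a ha

/-- **the affine equation** -/
theorem orbit {k : ℤ} (hk : k % 2 = 1) (x : ℤ) (n : ℕ) :
    2 ^ n * (T k)^[n] x = 3 ^ (ones (word k x n)) * x + k * V (word k x n) := by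
  induction n generalizing x with
  | zero => simp [word, ones, V]
  | succ n ih =>
    have h1 := ih (T k x)
    rw [Function.iterate_succ_apply, pow_succ, mul_right_comm, h1]
    simp only [word, V]
    rcases Int.emod_two_eq_zero_or_one x with h | h
    · have h2 : ones (x % 2 :: word k (T k x) n) = ones (word k (T k x) n) := by
        rw [h]
        exact List.count_cons_of_ne (by norm_num)
      rw [h2, h]
      have h3 := T_even (k := k) h
      linear_combination 3 ^ ones (word k (T k x) n) * h3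
    · have h2 : ones (x % 2 :: word k (T k x) n) = ones (word k (T k x) n) + 1 := by
        rw [h]
        exact List.count_cons_self
      rw [h2, h, pow_succ]
      have h3 := T_odd hk h
      linear_combination 3 ^ ones (word k (T k x) n) * h3

lemma V_append (w w' : List ℤ) : V (w ++ w') = 3 ^ (ones w') * V w + 2 ^ w.length * V w' := by
  induction w with
  | nil => simp [V]
  | cons a w ih =>
    simp only [List.cons_append, V, ih, ones_append, List.length_cons]
    ring

/-- powers of words -/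
def pw (u : List ℤ) (s : ℕ) : List ℤ := (List.replicate s u).flatten

lemma pw_succ (u : List ℤ) (s : ℕ) : pw u (s + 1) = u ++ pw u s := by
  simp [pw, List.replicate_succ]

lemma pw_length (u : List ℤ) (s : ℕ) : (pw u s).length = u.length * s := by
  induction s with
  | zero => simp [pw]
  | succ s ih => rw [pw_succ, List.length_append, ih]; ring

lemma pw_ones (u : List ℤ) (s : ℕ) : ones (pw u s) = ones u * s := by
  induction s with
  | zero => simp [pw, ones]
  | succ s ih => rw [pw_succ, ones_append, ih]; ring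

lemma V_pw (u : List ℤ) (s : ℕ) : V (pw u s) * (2 ^ u.length - 3 ^ ones u) =
    V u * (2 ^ (u.length * s) - 3 ^ (ones u * s)) := by
  induction s with
  | zero => simp [pw, V]
  | succ s ih =>
    rw [pw_succ, V_append, pw_ones, Nat.mul_succ, Nat.mul_succ, pow_add, pow_add]
    linear_combination (2 : ℤ) ^ u.length * ih

lemma V_bound {u : List ℤ} (hu : ∀ a ∈ u, a = 0 ∨ a = 1) : 0 ≤ V u ∧ V u ≤ 4 ^ u.length := by
  induction u with
  | nil => simp [V]
  | cons a w ih =>
    obtain ⟨h1, h2⟩ := ih fun b hb => hu b (List.mem_cons_of_mem _ hb)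
    have h3 : (3 : ℤ) ^ ones w ≤ 4 ^ w.length :=
      (pow_le_pow_left₀ (by norm_num) (by norm_num) _).trans
        (pow_le_pow_right₀ (by norm_num) (ones_le w))
    have h4 : (0 : ℤ) < 3 ^ ones w := by positivity
    simp only [V, List.length_cons, pow_succ]
    rcases hu a List.mem_cons_self with rfl | rfl
    · constructor <;> nlinarith
    · constructor <;> nlinarith

/-- the common denominator -/
def den (U : ℕ) : ℤ := ∏ a ∈ Finset.range (U + 1), ∏ b ∈ Finset.range (U + 1),
  if a = 0 then 1 else (2 ^ a - 3 ^ b)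

lemma den_ne (U : ℕ) : den U ≠ 0 := by
  refine Finset.prod_ne_zero_iff.2 fun a _ => Finset.prod_ne_zero_iff.2 fun b _ => ?_
  split_ifs with h
  · exact one_ne_zero
  · exact two_pow_ne (by omega)

lemma dvd_den {U a b : ℕ} (ha : 1 ≤ a) (haU : a ≤ U) (hb : b ≤ U) :
    ((2 : ℤ) ^ a - 3 ^ b) ∣ den U := by
  have h1 : (if a = 0 then (1 : ℤ) else (2 ^ a - 3 ^ b)) ∣
      ∏ b ∈ Finset.range (U + 1), if a = 0 then (1 : ℤ) else (2 ^ a - 3 ^ b) :=
    Finset.dvd_prod_of_mem (fun b => if a = 0 then (1 : ℤ) else (2 ^ a - 3 ^ b))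
      (Finset.mem_range.2 (by omega))
  rw [if_neg (by omega)] at h1
  refine h1.trans ?_
  exact Finset.dvd_prod_of_mem (fun a => ∏ b ∈ Finset.range (U + 1),
    if a = 0 then (1 : ℤ) else (2 ^ a - 3 ^ b)) (Finset.mem_range.2 (by omega))

/-- **the numerators are short sums** -/
theorem short (U : ℕ) (l : List (List ℤ × ℕ)) (hl : ∀ u ∈ l, u.1.length ≤ U)
    (h01 : ∀ u ∈ l, ∀ a ∈ u.1, a = 0 ∨ a = 1) :
    Sh (|den U| * 4 ^ U) ((l.map fun u => pw u.1 u.2).flatten).length (2 * l.length)
      (den U * V ((l.map fun u => pw u.1 u.2).flatten)) := by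
  have hA : 0 ≤ |den U| * 4 ^ U := by positivity
  induction l with
  | nil => simpa [V] using Sh.zero (|den U| * 4 ^ U) 0
  | cons p l ih =>
    obtain ⟨u, s⟩ := p
    have ih' := ih (fun u hu => hl u (List.mem_cons_of_mem _ hu))
      (fun u hu => h01 u (List.mem_cons_of_mem _ hu))
    have hu : u.length ≤ U := hl _ List.mem_cons_self
    have hu01 : ∀ a ∈ u, a = 0 ∨ a = 1 := h01 _ List.mem_cons_self
    simp only [List.map_cons, List.flatten_cons, List.length_append, List.length_cons]
    set W := (l.map fun u => pw u.1 u.2).flatten with hW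
    rw [V_append]
    have h1 := ih'.two (pw u s).length
    rcases Nat.eq_zero_or_pos u.length with h0 | h0
    · have h2 : u = [] := List.length_eq_zero_iff.1 h0
      have h3 : V (pw u s) = 0 := by
        rw [h2]
        have : pw [] s = [] := by
          apply List.length_eq_zero_iff.1
          rw [pw_length]
          simp
        rw [this]
        rfl
      have h4 : den U * (3 ^ ones W * V (pw u s) + 2 ^ (pw u s).length * V W) =
          2 ^ (pw u s).length * (den U * V W) := by
        rw [h3]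
        ring
      rw [h4]
      exact h1.pad hA (by omega)
    · obtain ⟨e, he⟩ := dvd_den (U := U) h0 hu ((ones_le u).trans hu)
      have hF0 : (2 : ℤ) ^ u.length - 3 ^ ones u ≠ 0 := two_pow_ne h0
      have h5 : den U * V (pw u s) = (e * V u) * (2 ^ (u.length * s) - 3 ^ (ones u * s)) := by
        have h6 := V_pw u s
        apply mul_left_cancel₀ hF0
        rw [he]
        linear_combination ((2 : ℤ) ^ u.length - 3 ^ ones u) * e * h6
      have hc : |e * V u| ≤ |den U| * 4 ^ U := by
        obtain ⟨h7, h8⟩ := V_bound hu01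
        rw [abs_mul, abs_of_nonneg h7]
        have h9 : |e| ≤ |den U| := by
          rw [he, abs_mul]
          exact le_mul_of_one_le_left (abs_nonneg _) (Int.one_le_abs hF0)
        have h10 : V u ≤ 4 ^ U := h8.trans (pow_le_pow_right₀ (by norm_num) hu)
        exact mul_le_mul h9 h10 h7 (abs_nonneg _)
      have hc' : |-(e * V u)| ≤ |den U| * 4 ^ U := by rwa [abs_neg]
      have h11 := (h1.add hc (i := u.length * s) (j := ones W) (by
        rw [pw_length]; omega) ((ones_le W).trans (by omega))).add hc' (i := 0)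
        (j := ones u * s + ones W) (by omega) (by
        have := ones_le W
        have h12 : ones u * s ≤ u.length * s := Nat.mul_le_mul_right _ (ones_le u)
        rw [pw_length]
        omega)
      have h13 : 2 * l.length + 1 + 1 = 2 * (l.length + 1) := by ring
      rw [h13] at h11
      have h14 : den U * (3 ^ ones W * V (pw u s) + 2 ^ (pw u s).length * V W) =
          2 ^ (pw u s).length * (den U * V W) + e * V u * (2 ^ (u.length * s) * 3 ^ ones W) +
            -(e * V u) * (2 ^ 0 * 3 ^ (ones u * s + ones W)) := by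
        rw [pow_add]
        linear_combination 3 ^ ones W * h5
      rw [h14]
      exact h11

lemma all_even {k x : ℤ} {n : ℕ} (h : ones (word k x n) = 0) : 2 ^ n * (T k)^[n] x = x := by
  induction n generalizing x with
  | zero => simp
  | succ n ih =>
    simp only [word] at h
    have h2 : x % 2 = 0 := by
      by_contra h3
      have h4 : x % 2 = 1 := by omega
      rw [h4] at h
      have : ones (1 :: word k (T k x) n) = ones (word k (T k x) n) + 1 := List.count_cons_self
      omega
    rw [h2] at h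
    have h5 : ones (0 :: word k (T k x) n) = ones (word k (T k x) n) :=
      List.count_cons_of_ne (by norm_num)
    rw [h5] at h
    rw [Function.iterate_succ_apply, pow_succ, mul_right_comm, ih h, mul_comm, T_even h2]

/-- **periodic points prime to `k`** -/
theorem coprime_case (m U : ℕ) {ε : ℝ} (hε : 0 < ε) :
    ∃ B : ℕ, 2 ≤ B ∧ ∀ k : ℤ, k % 2 = 1 → (B : ℤ) ≤ |k| → ∀ x : ℤ, IsCoprime x k →
      ∀ n : ℕ, 1 ≤ n → (T k)^[n] x = x → FewPowers m U (word k x n) →
      (∀ p : ℕ, p.Prime → p ≤ B → ¬ (p ∣ n ∧ p ∣ ones (word k x n))) →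
      (n : ℝ) ≤ (1 + ε) * Real.logb 2 |(k : ℝ)| := by
  have hl2 : 0 < Real.log 2 := Real.log_pos (by norm_num)
  set δ : ℝ := ε * Real.log 2 / (2 * (1 + ε)) with hδ
  have hδ0 : 0 < δ := by positivity
  set A : ℤ := |den U| * 4 ^ U with hA
  have hA0 : 0 ≤ A := by positivity
  obtain ⟨B, hB⟩ := gcd23 (2 * m) A hδ0
  obtain ⟨n₀, hn₀⟩ := low_pow hδ0
  refine ⟨max (2 ^ (B + n₀ + 1)) ((den U).natAbs + 1), le_trans ?_ (le_max_left _ _),
    fun k hk hk2 x hxk n hn hx hw hp => ?_⟩
  · calc 2 = 2 ^ 1 := by norm_num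
      _ ≤ _ := Nat.pow_le_pow_right (by norm_num) (by omega)
  have hk2' : (2 : ℤ) ^ (B + n₀ + 1) ≤ |k| := by
    refine le_trans ?_ hk2
    have := le_max_left (2 ^ (B + n₀ + 1)) ((den U).natAbs + 1)
    exact_mod_cast this
  have hkden : |den U| < |k| := by
    have h1 : (((den U).natAbs + 1 : ℕ) : ℤ) ≤ |k| := by
      refine le_trans ?_ hk2
      exact_mod_cast le_max_right (2 ^ (B + n₀ + 1)) ((den U).natAbs + 1)
    push_cast at h1
    omega
  have hkR : (2 : ℝ) ^ (B + n₀ + 1) ≤ |(k : ℝ)| := by exact_mod_cast hk2'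
  have hBk : B ≤ max (2 ^ (B + n₀ + 1)) ((den U).natAbs + 1) := by
    refine le_trans ?_ (le_max_left _ _)
    have : B + n₀ + 1 < 2 ^ (B + n₀ + 1) := Nat.lt_two_pow_self
    omega
  have hk1R : (1 : ℝ) < |(k : ℝ)| := by
    refine lt_of_lt_of_le ?_ hkR
    exact one_lt_pow₀ (by norm_num) (by omega)
  have hlog : (B : ℝ) + n₀ + 1 ≤ Real.logb 2 |(k : ℝ)| := by
    rw [Real.le_logb_iff_rpow_le (by norm_num) (by linarith)]
    refine le_trans (le_of_eq ?_) hkR
    have : (B : ℝ) + n₀ + 1 = ((B + n₀ + 1 : ℕ) : ℝ) := by push_cast; ring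
    rw [this, Real.rpow_natCast]
  by_cases hbig : n < B + n₀
  · have : (n : ℝ) ≤ (B : ℝ) + n₀ := by exact_mod_cast hbig.le
    have h0 : 0 ≤ Real.logb 2 |(k : ℝ)| := by
      have : (0 : ℝ) ≤ (B : ℝ) + n₀ + 1 := by positivity
      linarith
    nlinarith
  push Not at hbig
  have hk0 : k ≠ 0 := by
    rintro rfl
    norm_num at hk1R
  have hunit : ¬ IsUnit k := by
    intro hu
    rw [Int.isUnit_iff] at hu
    rcases hu with rfl | rfl <;> norm_num at hk1R
  -- the number of odd terms is positive
  have hK1 : 1 ≤ ones (word k x n) := by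
    by_contra h0
    have h1 : ones (word k x n) = 0 := by omega
    have h2 := all_even h1
    rw [hx] at h2
    have h3 : x * (2 ^ n - 1) = 0 := by linear_combination h2
    have h4 : (2 : ℤ) ^ n - 1 ≠ 0 := by
      have : (2 : ℤ) ≤ 2 ^ n := by
        calc (2 : ℤ) = 2 ^ 1 := by norm_num
          _ ≤ 2 ^ n := pow_le_pow_right₀ (by norm_num) hn
      omega
    have h5 : x = 0 := (mul_eq_zero.1 h3).resolve_right h4
    rw [h5, isCoprime_zero_left] at hxk
    exact hunit hxk
  have hKn : ones (word k x n) ≤ n := by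
    have := ones_le (word k x n)
    rwa [word_length] at this
  obtain ⟨l, hlm, hlU, hl⟩ := hw
  have h01 : ∀ u ∈ l, 1 ≤ u.2 → ∀ a ∈ u.1, a = 0 ∨ a = 1 := by
    intro u hu hu2 a ha
    apply word_mem k x n a
    rw [hl, List.mem_flatten]
    refine ⟨(List.replicate u.2 u.1).flatten, List.mem_map.2 ⟨u, hu, rfl⟩, ?_⟩
    rw [List.mem_flatten]
    exact ⟨u.1, List.mem_replicate.2 ⟨by omega, rfl⟩, ha⟩
  -- remove the trivial powers
  set l' := l.filter fun u => 1 ≤ u.2 with hl'
  have hlen : l'.length ≤ m := (List.length_filter_le _ _).trans hlm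
  have hflat : ∀ L : List (List ℤ × ℕ), (L.map fun u => pw u.1 u.2).flatten =
      ((L.filter fun u => 1 ≤ u.2).map fun u => pw u.1 u.2).flatten := by
    intro L
    induction L with
    | nil => rfl
    | cons p L ih =>
      simp only [List.map_cons, List.flatten_cons, List.filter_cons]
      split_ifs with h
      · simp only [List.map_cons, List.flatten_cons, ih]
      · have h0 : p.2 = 0 := by simpa using h
        have h1 : pw p.1 p.2 = [] := by rw [h0]; simp [pw]
        rw [h1, List.nil_append, ih]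
  have hword : word k x n = (l'.map fun u => pw u.1 u.2).flatten := by
    rw [hl, hl', ← hflat]
    rfl
  have hsh := short U l' (fun u hu => hlU u (List.mem_of_mem_filter hu)) (fun u hu => by
    have h1 := List.mem_filter.1 hu
    exact h01 u h1.1 (by simpa using h1.2))
  rw [← hword, word_length] at hsh
  obtain ⟨c, i, j, hc, hi, hj, hN⟩ := hsh.pad hA0 (r' := 2 * m) (by omega)
  set F : ℤ := 2 ^ n - 3 ^ (ones (word k x n)) with hF
  have hF0 : F ≠ 0 := two_pow_ne hn
  have h1 : x * F = k * V (word k x n) := by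
    have := orbit hk x n
    rw [hx] at this
    rw [hF]
    linear_combination this
  set N : ℤ := V (word k x n) with hNdef
  have hkF : k ∣ F := hxk.symm.dvd_of_dvd_mul_left ⟨N, h1⟩
  obtain ⟨q, hq⟩ := hkF
  have hq0 : q ≠ 0 := by
    rintro rfl
    rw [mul_zero] at hq
    exact hF0 hq
  have hxq : x * q = N := by
    rw [hq] at h1
    have h2 : k * (x * q) = k * N := by linear_combination h1
    exact mul_left_cancel₀ hk0 h2
  have hNF : ¬ F ∣ den U * N := by
    rintro ⟨e, he⟩
    rw [← hxq, hq] at he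
    have h2 : q * (den U * x) = q * (k * e) := by linear_combination he
    have h3 := mul_left_cancel₀ hq0 h2
    have h4 : k ∣ den U * x := ⟨e, h3⟩
    have h5 : k ∣ den U := hxk.symm.dvd_of_dvd_mul_right h4
    have h6 := Int.le_of_dvd (abs_pos.2 (den_ne U)) ((abs_dvd_abs _ _).2 h5)
    linarith
  have key := hB n (by omega) (ones (word k x n)) hK1 hKn (fun p hp1 hp2 => hp p hp1 (hp2.trans hBk))
    c i j hc hi hj
    (by rw [← hN]; exact hNF) q.natAbs (by
      rw [Int.natCast_natAbs, abs_dvd]
      exact ⟨k, by rw [← hF, hq]; ring⟩) (by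
      rw [Int.natCast_natAbs, abs_dvd, ← hN]
      exact ⟨den U * x, by rw [← hxq]; ring⟩)
  have h5 := hn₀ n (by omega) (ones (word k x n))
  have h6 : |(2 : ℝ) ^ n - 3 ^ ones (word k x n)| = |(k : ℝ)| * (q.natAbs : ℝ) := by
    have h7 : ((F : ℤ) : ℝ) = ((k * q : ℤ) : ℝ) := by rw [hq]
    rw [hF] at h7
    push_cast at h7
    rw [h7, abs_mul]
    congr 1
    rw [Nat.cast_natAbs]
    push_cast
    rfl
  rw [h6] at h5
  have h7 : Real.exp ((Real.log 2 - 2 * δ) * n) ≤ |(k : ℝ)| := by
    have h8 : Real.exp ((Real.log 2 - δ) * n) ≤ |(k : ℝ)| * Real.exp (δ * n) :=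
      h5.trans (mul_le_mul_of_nonneg_left key.le (abs_nonneg _))
    have h9 : Real.exp ((Real.log 2 - δ) * n) =
        Real.exp ((Real.log 2 - 2 * δ) * n) * Real.exp (δ * n) := by
      rw [← Real.exp_add]; ring_nf
    rw [h9] at h8
    exact le_of_mul_le_mul_right h8 (Real.exp_pos _)
  have h8 : (Real.log 2 - 2 * δ) * n ≤ Real.log |(k : ℝ)| := by
    rw [Real.le_log_iff_exp_le (by linarith)]
    exact h7
  have h9 : Real.log 2 = (1 + ε) * (Real.log 2 - 2 * δ) := by
    rw [hδ]
    field_simp
    ring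
  rw [Real.logb, ← mul_div_assoc, le_div_iff₀ hl2]
  calc (n : ℝ) * Real.log 2 = (1 + ε) * ((Real.log 2 - 2 * δ) * n) := by
        conv_lhs => rw [h9]
        ring
    _ ≤ _ := mul_le_mul_of_nonneg_left h8 (by linarith)

end Pool.Agent.H556.KC
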