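import Mathlib
import Pool.Agent.H556.KC.Dyn

/-!
# Reduction to periodic points prime to `k`
-/

set_option autoImplicit false

namespace Pool.Agent.H556.KC

lemma T_scale {g : ℤ} (hg : g % 2 = 1) {k : ℤ} (hk : k % 2 = 1) (x : ℤ) :
    T (g * k) (g * x) = g * T k x := by
  have h0 : g * x % 2 = x % 2 := by
    rw [Int.mul_emod, hg, one_mul, Int.emod_emod_of_dvd _ (dvd_refl 2)]
  unfold T
  rw [h0]
  split_ifs with h
  · obtain ⟨y, hy⟩ := Int.dvd_of_emod_eq_zero h
    rw [hy, mul_left_comm, Int.mul_ediv_cancel_left _ (by norm_num),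
      Int.mul_ediv_cancel_left _ (by norm_num)]
  · have h1 : (3 * x + k) % 2 = 0 := by omega
    obtain ⟨y, hy⟩ := Int.dvd_of_emod_eq_zero h1
    have h2 : 3 * (g * x) + g * k = 2 * (g * y) := by linear_combination g * hy
    rw [h2, hy, Int.mul_ediv_cancel_left _ (by norm_num),
      Int.mul_ediv_cancel_left _ (by norm_num)]

lemma iter_scale {g : ℤ} (hg : g % 2 = 1) {k : ℤ} (hk : k % 2 = 1) (x : ℤ) (n : ℕ) :
    (T (g * k))^[n] (g * x) = g * (T k)^[n] x := by
  induction n generalizing x with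
  | zero => rfl
  | succ n ih => rw [Function.iterate_succ_apply, Function.iterate_succ_apply, T_scale hg hk, ih]

lemma word_scale {g : ℤ} (hg : g % 2 = 1) {k : ℤ} (hk : k % 2 = 1) (x : ℤ) (n : ℕ) :
    word (g * k) (g * x) n = word k x n := by
  induction n generalizing x with
  | zero => rfl
  | succ n ih =>
    simp only [word]
    rw [T_scale hg hk, ih, Int.mul_emod, hg, one_mul, Int.emod_emod_of_dvd _ (dvd_refl 2)]

theorem general (m U : ℕ) {ε : ℝ} (hε : 0 < ε) :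
    ∃ B : ℕ, ∀ k : ℤ, k % 2 = 1 → ∀ x : ℤ, (B : ℤ) * Int.gcd x k ≤ |k| →
      ∀ n : ℕ, 1 ≤ n → (T k)^[n] x = x → FewPowers m U (word k x n) →
      (∀ p : ℕ, p.Prime → p ≤ B → ¬ (p ∣ n ∧ p ∣ (word k x n).count 1)) →
      (n : ℝ) ≤ (1 + ε) * Real.logb 2 (|(k : ℝ)| / Int.gcd x k) := by
  obtain ⟨B, hB2, hB⟩ := coprime_case m U hε
  refine ⟨B, fun k hk x hkx n hn hx hw hp => ?_⟩
  have hk0 : k ≠ 0 := by
    rintro rfl
    norm_num at hk
  have hg0 : Int.gcd x k ≠ 0 := by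
    rw [Ne, Int.gcd_eq_zero_iff]
    exact fun h => hk0 h.2
  set g : ℤ := ((Int.gcd x k : ℕ) : ℤ) with hg
  have hg0' : g ≠ 0 := by rw [hg]; exact_mod_cast hg0
  have hgpos : 0 < g := by
    have : 0 ≤ g := by rw [hg]; exact Int.natCast_nonneg _
    omega
  obtain ⟨k', hk'⟩ : g ∣ k := Int.gcd_dvd_right _ _
  obtain ⟨x', hx'⟩ : g ∣ x := Int.gcd_dvd_left _ _
  have hodd : g % 2 = 1 ∧ k' % 2 = 1 := by
    have h1 : Odd (g * k') := by rw [← hk']; exact Int.odd_iff.2 hk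
    rw [Int.odd_mul] at h1
    exact ⟨Int.odd_iff.1 h1.1, Int.odd_iff.1 h1.2⟩
  have hcop : IsCoprime x' k' := by
    have h1 := Int.gcd_eq_gcd_ab x k
    rw [← hg] at h1
    refine ⟨Int.gcdA x k, Int.gcdB x k, ?_⟩
    apply mul_left_cancel₀ hg0'
    rw [mul_one]
    conv_rhs => rw [h1]
    linear_combination (-Int.gcdA x k) * hx' - Int.gcdB x k * hk'
  have habs : |k| = g * |k'| := by rw [hk', abs_mul, abs_of_pos hgpos]
  have hBk : (B : ℤ) ≤ |k'| := by
    rw [habs, mul_comm] at hkx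
    exact le_of_mul_le_mul_left hkx hgpos
  have e1 : (T k')^[n] x' = x' := by
    have h1 : (T k)^[n] x = g * (T k')^[n] x' := by
      conv_lhs => rw [hk', hx']
      exact iter_scale hodd.1 hodd.2 x' n
    rw [h1] at hx
    rw [hx'] at hx
    exact mul_left_cancel₀ hg0' hx
  have e2 : word k x n = word k' x' n := by
    conv_lhs => rw [hk', hx']
    exact word_scale hodd.1 hodd.2 x' n
  rw [e2] at hw hp
  have key := hB k' hodd.2 hBk x' hcop n hn e1 hw hp
  have h3 : |(k : ℝ)| / (Int.gcd x k : ℝ) = |(k' : ℝ)| := by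
    have h4 : ((|k| : ℤ) : ℝ) = ((g * |k'| : ℤ) : ℝ) := by rw [habs]
    push_cast at h4
    have h5 : (g : ℝ) = (Int.gcd x k : ℝ) := by rw [hg]; push_cast; rfl
    rw [h4, h5, mul_comm, mul_div_assoc, div_self (by exact_mod_cast hg0), mul_one]
  rw [h3]
  exact key

end Pool.Agent.H556.KC
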